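import Pool.Agent.H264R2.Bounds

set_option autoImplicit false

namespace Pool.Agent.Results.MP_b27023_nt.UpperBound

open Finset

/-- The squares `1², 2², …, N²`. -/
def squares (N : ℕ) : Finset ℕ := (Finset.Icc 1 N).image (fun a => a ^ 2)

/-- `A` is a Sidon set: `a + b = c + d` forces `{a, b} = {c, d}`. -/
def IsSidon (A : Finset ℕ) : Prop :=
  ∀ a ∈ A, ∀ b ∈ A, ∀ c ∈ A, ∀ d ∈ A, a + b = c + d → (a = c ∧ b = d) ∨ (a = d ∧ b = c)

open Classical in
/-- The largest size of a Sidon subset of the first `N` positive squares. -/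
noncomputable def fmax (N : ℕ) : ℕ :=
  ((squares N).powerset.filter IsSidon).sup Finset.card

/-- Sidon subsets of `{1², …, N²}` have at most `N ^ (1 - c / log log N)` elements, with `c = 1/400`,
for all large `N`. -/
theorem result : ∃ N₀ : ℕ, ∀ N : ℕ, N₀ ≤ N →
    (fmax N : ℝ) ≤ (N : ℝ) ^ (1 - 1 / 400 / Real.log (Real.log N)) := by
  classical
  obtain ⟨n₀, h⟩ := Pool.Agent.H264R2.Bounds.squares
  refine ⟨n₀, fun n hn => ?_⟩
  have hne : ((squares n).powerset.filter IsSidon).Nonempty := by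
    refine ⟨∅, ?_⟩
    rw [mem_filter, mem_powerset]
    exact ⟨Finset.empty_subset _, fun a ha => absurd ha (Finset.notMem_empty a)⟩
  obtain ⟨S, hS, hcard⟩ := Finset.exists_mem_eq_sup _ hne Finset.card
  have hk : fmax n = S.card := by
    unfold fmax
    convert hcard
  rw [hk]
  rw [mem_filter, mem_powerset] at hS
  set A : Finset ℕ := (Finset.Icc 1 n).filter (fun a => a ^ 2 ∈ S) with hA
  have hinj : Function.Injective (fun a : ℕ => a ^ 2) := Nat.pow_left_injective (by norm_num)
  have hAS : A.image (fun a => a ^ 2) = S := by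
    ext s
    rw [mem_image]
    constructor
    · rintro ⟨a, ha, rfl⟩
      rw [hA, mem_filter] at ha
      exact ha.2
    · intro hs
      have := hS.1 hs
      rw [squares, mem_image] at this
      obtain ⟨a, ha, rfl⟩ := this
      exact ⟨a, by rw [hA, mem_filter]; exact ⟨ha, hs⟩, rfl⟩
  have hcardA : S.card = A.card := by
    rw [← hAS, Finset.card_image_of_injective _ hinj]
  rw [hcardA]
  apply h n hn A
  · intro a ha
    rw [hA, mem_filter, mem_Icc] at ha
    exact ha.1.2
  · intro a ha b hb c hc e he hab heq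
    rw [hA, mem_filter] at ha hb hc he
    have h1 : a ^ 2 + e ^ 2 = c ^ 2 + b ^ 2 := by
      have : ((a ^ 2 + e ^ 2 : ℕ) : ℤ) = ((c ^ 2 + b ^ 2 : ℕ) : ℤ) := by
        push_cast
        linarith
      exact_mod_cast this
    rcases hS.2 _ ha.2 _ he.2 _ hc.2 _ hb.2 h1 with ⟨h2, h3⟩ | ⟨h2, _⟩
    · exact ⟨hinj h2, (hinj h3).symm⟩
    · exact absurd (hinj h2) hab

end Pool.Agent.Results.MP_b27023_nt.UpperBound
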